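import Pool.Agent.MP_bdf372_lc.Final

set_option autoImplicit false

namespace Pool.Agent.Results.MP_bdf372_lc.DNCNotEnough

open Pool.Agent.MPbdf372

/-- There are a set `A` that computes a function which is DNC relative to the halting set, and a
computable colouring `c` of the natural numbers with two colours, such that `A` does not compute
any infinite set `H` for which `c (x + y)` is constant over distinct `x`, `y` in `H`. -/
theorem result : ∃ A : Set ℕ,
    (∃ f : ℕ → ℕ, TuringReducible (fun n => Part.some (f n)) (chi A) ∧ DNCHalt f) ∧
    ∃ c : ℕ → Bool, Computable c ∧
      ∀ H : Set ℕ, TuringReducible (chi H) (chi A) → ¬ IsSolution c H :=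
  main

end Pool.Agent.Results.MP_bdf372_lc.DNCNotEnough
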